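import Mathlib

set_option autoImplicit false

namespace Q117.KK

open Finset

/-- `K_s` plus two non-adjacent vertices, joined to the first `t` and the first `u` vertices
of `K_s`. -/
def GG (s t u : ℕ) : SimpleGraph (Fin (s + 2)) where
  Adj a b := a ≠ b ∧ ((a.val < s ∧ b.val < s) ∨ (a.val = s ∧ b.val < t) ∨ (b.val = s ∧ a.val < t) ∨
    (a.val = s + 1 ∧ b.val < u) ∨ (b.val = s + 1 ∧ a.val < u))
  symm := ⟨by
    rintro a b ⟨h1, h2⟩
    refine ⟨h1.symm, ?_⟩
    rcases h2 with h | h | h | h | h
    · exact Or.inl ⟨h.2, h.1⟩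
    · exact Or.inr (Or.inr (Or.inl h))
    · exact Or.inr (Or.inl h)
    · exact Or.inr (Or.inr (Or.inr (Or.inr h)))
    · exact Or.inr (Or.inr (Or.inr (Or.inl h)))⟩
  loopless := ⟨fun _ h => h.1 rfl⟩

/-- initial segment -/
def seg (n m : ℕ) : Finset (Fin n) := univ.filter (fun i => i.val < m)

lemma mem_seg {n m : ℕ} {i : Fin n} : i ∈ seg n m ↔ i.val < m := by
  unfold seg; simp

lemma card_seg {n m : ℕ} (h : m ≤ n) : (seg n m).card = m := by
  unfold seg
  rw [Fin.card_filter_val_lt]
  exact min_eq_right h

lemma card_img {n m : ℕ} (h : m ≤ n) (x : Fin n) (hx : m ≤ x.val) (j : ℕ) :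
    (((seg n m).powersetCard j).image (insert x)).card = m.choose j := by
  rw [Finset.card_image_of_injOn, Finset.card_powersetCard, card_seg h]
  intro S hS T hT hST
  rw [mem_coe, mem_powersetCard] at hS hT
  have h1 : x ∉ S := fun h' => by have := mem_seg.1 (hS.1 h'); omega
  have h2 : x ∉ T := fun h' => by have := mem_seg.1 (hT.1 h'); omega
  have := congrArg (fun K => K.erase x) hST
  simp only [Finset.erase_insert h1, Finset.erase_insert h2] at this
  exact this

lemma cliques_eq (s t u : ℕ) (ht : t ≤ s) (hu : u ≤ s) (j : ℕ) [DecidableRel (GG s t u).Adj] :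
    (GG s t u).cliqueFinset (j + 1) =
      ((seg (s + 2) s).powersetCard (j + 1) ∪
        ((seg (s + 2) t).powersetCard j).image (insert ⟨s, by omega⟩)) ∪
        ((seg (s + 2) u).powersetCard j).image (insert ⟨s + 1, by omega⟩) := by
  set x : Fin (s + 2) := ⟨s, by omega⟩ with hx
  set y : Fin (s + 2) := ⟨s + 1, by omega⟩ with hy
  have hxv : x.val = s := rfl
  have hyv : y.val = s + 1 := rfl
  have hxadj : ∀ b, (GG s t u).Adj x b ↔ b.val < t := by
    intro b
    constructor
    · rintro ⟨h1, h2⟩
      rcases h2 with h | h | h | h | h <;> omega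
    · intro h
      refine ⟨?_, Or.inr (Or.inl ⟨rfl, h⟩)⟩
      intro h'
      have := congrArg Fin.val h'
      omega
  have hyadj : ∀ b, (GG s t u).Adj y b ↔ b.val < u := by
    intro b
    constructor
    · rintro ⟨h1, h2⟩
      rcases h2 with h | h | h | h | h <;> omega
    · intro h
      refine ⟨?_, Or.inr (Or.inr (Or.inr (Or.inl ⟨rfl, h⟩)))⟩
      intro h'
      have := congrArg Fin.val h'
      omega
  have hlow : ∀ a b : Fin (s + 2), a ≠ b → a.val < s → b.val < s → (GG s t u).Adj a b :=
    fun a b h h1 h2 => ⟨h, Or.inl ⟨h1, h2⟩⟩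
  ext T
  rw [SimpleGraph.mem_cliqueFinset_iff, SimpleGraph.isNClique_iff, mem_union, mem_union,
    mem_powersetCard, mem_image, mem_image]
  constructor
  · rintro ⟨hT, hc⟩
    by_cases hxT : x ∈ T
    · left; right
      refine ⟨T.erase x, ?_, Finset.insert_erase hxT⟩
      rw [mem_powersetCard, Finset.card_erase_of_mem hxT, hc]
      refine ⟨?_, rfl⟩
      intro b hb
      rw [mem_seg]
      exact (hxadj b).1 (hT hxT (Finset.mem_of_mem_erase hb) (Finset.ne_of_mem_erase hb).symm)
    · by_cases hyT : y ∈ T
      · right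
        refine ⟨T.erase y, ?_, Finset.insert_erase hyT⟩
        rw [mem_powersetCard, Finset.card_erase_of_mem hyT, hc]
        refine ⟨?_, rfl⟩
        intro b hb
        rw [mem_seg]
        exact (hyadj b).1 (hT hyT (Finset.mem_of_mem_erase hb) (Finset.ne_of_mem_erase hb).symm)
      · left; left
        refine ⟨?_, hc⟩
        intro b hb
        rw [mem_seg]
        have h1 : b ≠ x := fun h => hxT (h ▸ hb)
        have h2 : b ≠ y := fun h => hyT (h ▸ hb)
        have h3 : b.val ≠ s := fun h => h1 (Fin.ext h)
        have h4 : b.val ≠ s + 1 := fun h => h2 (Fin.ext h)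
        have := b.isLt
        omega
  · rintro ((⟨h1, h2⟩ | ⟨S, hS, rfl⟩) | ⟨S, hS, rfl⟩)
    · refine ⟨?_, h2⟩
      intro a ha b hb hab
      exact hlow a b hab (mem_seg.1 (h1 ha)) (mem_seg.1 (h1 hb))
    · rw [mem_powersetCard] at hS
      have hxS : x ∉ S := fun h => by have := mem_seg.1 (hS.1 h); omega
      refine ⟨?_, by rw [Finset.card_insert_of_notMem hxS, hS.2]⟩
      intro a ha b hb hab
      rw [mem_coe, mem_insert] at ha hb
      rcases ha with rfl | ha
      · rcases hb with rfl | hb
        · exact absurd rfl hab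
        · exact (hxadj b).2 (mem_seg.1 (hS.1 hb))
      · rcases hb with rfl | hb
        · exact ((hxadj a).2 (mem_seg.1 (hS.1 ha))).symm
        · have h1 := mem_seg.1 (hS.1 ha)
          have h2 := mem_seg.1 (hS.1 hb)
          exact hlow a b hab (by omega) (by omega)
    · rw [mem_powersetCard] at hS
      have hyS : y ∉ S := fun h => by have := mem_seg.1 (hS.1 h); omega
      refine ⟨?_, by rw [Finset.card_insert_of_notMem hyS, hS.2]⟩
      intro a ha b hb hab
      rw [mem_coe, mem_insert] at ha hb
      rcases ha with rfl | ha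
      · rcases hb with rfl | hb
        · exact absurd rfl hab
        · exact (hyadj b).2 (mem_seg.1 (hS.1 hb))
      · rcases hb with rfl | hb
        · exact ((hyadj a).2 (mem_seg.1 (hS.1 ha))).symm
        · have h1 := mem_seg.1 (hS.1 ha)
          have h2 := mem_seg.1 (hS.1 hb)
          exact hlow a b hab (by omega) (by omega)

/-- Exact clique counts. -/
theorem card_cliques (s t u : ℕ) (ht : t ≤ s) (hu : u ≤ s) (j : ℕ)
    [DecidableRel (GG s t u).Adj] :
    ((GG s t u).cliqueFinset (j + 1)).card = s.choose (j + 1) + t.choose j + u.choose j := by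
  rw [cliques_eq s t u ht hu j, Finset.card_union_of_disjoint, Finset.card_union_of_disjoint,
    card_img (by omega) _ (by show t ≤ s; omega), card_img (by omega) _ (by show u ≤ s + 1; omega),
    Finset.card_powersetCard, card_seg (by omega)]
  · rw [Finset.disjoint_left]
    intro T hT hT'
    rw [mem_powersetCard] at hT
    rw [mem_image] at hT'
    obtain ⟨S, _, rfl⟩ := hT'
    have := mem_seg.1 (hT.1 (Finset.mem_insert_self _ S))
    simp only at this
    omega
  · rw [Finset.disjoint_left]
    intro T hT hT'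
    rw [mem_image] at hT'
    obtain ⟨S, hS, rfl⟩ := hT'
    rw [mem_union, mem_powersetCard, mem_image] at hT
    rcases hT with hT | ⟨S', hS', heq⟩
    · have := mem_seg.1 (hT.1 (Finset.mem_insert_self _ S))
      simp only at this
      omega
    · have h1 : (⟨s + 1, by omega⟩ : Fin (s + 2)) ∈ insert (⟨s, by omega⟩ : Fin (s + 2)) S' := by
        rw [heq]; exact Finset.mem_insert_self _ S
      rw [mem_insert] at h1
      rcases h1 with h1 | h1
      · have := congrArg Fin.val h1
        simp only at this
        omega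
      · rw [mem_powersetCard] at hS'
        have := mem_seg.1 (hS'.1 h1)
        simp only at this
        omega

lemma choose_big (m q : ℕ) (hm : 1 ≤ m) : q + 1 ≤ (m + q).choose m := by
  induction q with
  | zero => simp
  | succ q ih =>
    obtain ⟨m', rfl⟩ : ∃ m', m = m' + 1 := ⟨m - 1, by omega⟩
    have h1 : m' + 1 + (q + 1) = (m' + 1 + q) + 1 := by ring
    rw [h1, Nat.choose_succ_succ']
    have h2 : 0 < (m' + 1 + q).choose m' := Nat.choose_pos (by omega)
    omega

end Q117.KK
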